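import Pool.Agent.Q54.KP.StmB

set_option autoImplicit false

namespace Pool.Agent.Q198.KP

open Finset
open Pool.Agent.Q54.KP

section
variable {V ι : Type} [Fintype V] [DecidableEq V] [Fintype ι]

/-- double counting of the loads -/
lemma ld_sum [DecidableEq ι] (K : Finset (ι → V)) (ω : (ι → V) → ℝ) (hK : ∀ κ ∈ K, Function.Injective κ)
    (h0 : ∀ κ, κ ∉ K → ω κ = 0) (g : V → ℝ) : ∑ v, ld K ω v * g v = ∑ κ, ω κ * ∑ i, g (κ i) := by
  have h1 : ∑ κ, ω κ * ∑ i, g (κ i) = ∑ κ ∈ K, ω κ * ∑ i, g (κ i) := by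
    symm
    apply Finset.sum_subset (Finset.subset_univ K)
    intro κ _ hκ
    rw [h0 κ hκ, zero_mul]
  rw [h1]
  unfold ld
  simp only [Finset.sum_filter, Finset.sum_mul]
  rw [Finset.sum_comm]
  apply Finset.sum_congr rfl
  intro κ hκ
  have h2 : ∑ i, g (κ i) = ∑ v ∈ univ.image κ, g v := by
    rw [Finset.sum_image fun i _ j _ h => hK κ hκ h]
  rw [h2, Finset.mul_sum]
  have h3 : univ.image κ = univ.filter (fun v => ∃ i, κ i = v) := by
    ext v
    simp
  rw [h3, Finset.sum_filter]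
  apply Finset.sum_congr rfl
  intro v _
  split_ifs <;> simp

omit [Fintype V] in
lemma ld_nonneg (K : Finset (ι → V)) (ω : (ι → V) → ℝ) (h0 : ∀ κ, 0 ≤ ω κ) (v : V) : 0 ≤ ld K ω v := by
  unfold ld
  exact Finset.sum_nonneg fun κ _ => h0 κ

omit [Fintype ι] in
/-- `1 - ∏ a ≤ ∑ (1 - a)` -/
lemma one_sub_prod_le (s : Finset ι) (a : ι → ℝ) (h0 : ∀ i, 0 ≤ a i) (h1 : ∀ i, a i ≤ 1) :
    1 - ∏ i ∈ s, a i ≤ ∑ i ∈ s, (1 - a i) := by
  classical
  induction s using Finset.induction_on with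
  | empty => simp
  | insert j s hj ih =>
    rw [Finset.prod_insert hj, Finset.sum_insert hj]
    have p0 : 0 ≤ ∏ i ∈ s, a i := Finset.prod_nonneg fun i _ => h0 i
    have p1 : ∏ i ∈ s, a i ≤ 1 := Finset.prod_le_one (fun i _ => h0 i) fun i _ => h1 i
    nlinarith [h0 j, h1 j]

end

theorem frc : S_KKT → S_DIS → S_DUA → S_FRC := by
  intro hKKT hDIS hDUA t c ht hc hc1
  obtain ⟨ε0, he0, he1, hD⟩ := hDUA c hc hc1
  refine ⟨ε0, he0, fun α hα => ?_⟩
  have ht' : (1 : ℝ) ≤ t := by exact_mod_cast ht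
  set A1 : ℝ := α / (1 + 3 * t) with hA1
  have hA1p : 0 < A1 := by positivity
  obtain ⟨δ, hδ, n1, hDU⟩ := hD A1 hA1p
  obtain ⟨lam, hlam, n2, hDI⟩ := hDIS t δ ht hδ
  refine ⟨1 / lam, by positivity, max (max n1 n2) 1, ?_⟩
  intro V _ _ E D K hn hHy hK
  have hn1 : n1 ≤ Fintype.card V := le_trans (le_trans (le_max_left _ _) (le_max_left _ _)) hn
  have hn2 : n2 ≤ Fintype.card V := le_trans (le_trans (le_max_right _ _) (le_max_left _ _)) hn
  have hn3 : 1 ≤ Fintype.card V := le_trans (le_max_right _ _) hn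
  have hnn : (1 : ℝ) ≤ nn V := by
    unfold nn
    exact_mod_cast hn3
  have hnp : (0 : ℝ) < nn V := by linarith
  set cap : ℝ := 1 / lam / nn V ^ (3 * t - 1) with hcap
  have hcap0 : 0 < cap := by positivity
  have hKinj : ∀ κ ∈ K, Function.Injective κ := fun κ hκ => ((hK κ).mp hκ).1
  obtain ⟨ω, hω1, hω2, hω3, hω4, hω5⟩ := hKKT V (Fin 3 × Fin t) K cap hcap0 hKinj
  have hω0 : ∀ κ, 0 ≤ ω κ := fun κ => (hω1 κ).1
  set w : V → ℝ := fun v => ld K ω v - 1 with hw
  have hcard : Fintype.card (Fin 3 × Fin t) = 3 * t := by simp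
  have hsumw : ∑ v, w v = -∑ v, (1 - ld K ω v) := by
    rw [← Finset.sum_neg_distrib]
    apply Finset.sum_congr rfl
    intro v _
    simp only [hw]
    ring
  have hz0 : 0 ≤ ∑ v, (1 - ld K ω v) := le_trans (Finset.sum_nonneg fun v _ => sq_nonneg _) hω4
  have hld : ∑ v, ld K ω v = 3 * t * ∑ κ, ω κ := by
    have := ld_sum K ω hKinj hω2 (fun _ => 1)
    simp only [mul_one] at this
    rw [this, Finset.mul_sum]
    apply Finset.sum_congr rfl
    intro κ _
    rw [Finset.sum_const, Finset.card_univ, hcard]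
    simp only [nsmul_eq_mul, mul_one]
    push_cast
    ring
  have hzld : ∑ v, (1 - ld K ω v) = nn V - ∑ v, ld K ω v := by
    rw [Finset.sum_sub_distrib]
    congr 1
    simp [nn]
  have hω6 : 0 ≤ ∑ κ, ω κ := Finset.sum_nonneg fun κ _ => hω0 κ
  have hωle : ∑ κ, ω κ ≤ nn V := by
    have h1 : 3 * t * ∑ κ, ω κ ≤ nn V := by rw [← hld]; linarith
    nlinarith
  -- few negative copies
  have hfewc : cnt (fun κ : Fin 3 × Fin t → V => Ck E t κ ∧ ∑ i, w (κ i) < 0) ≤ lam * nn V ^ (3 * t) := by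
    classical
    rw [cnt_eq_card]
    set S := univ.filter (fun κ : Fin 3 × Fin t → V => Ck E t κ ∧ ∑ i, w (κ i) < 0) with hS
    have h1 : ∀ κ ∈ S, ω κ = cap := by
      intro κ hκ
      obtain ⟨hκ1, hκ2⟩ := (Finset.mem_filter.mp hκ).2
      by_contra hne
      have hlt : ω κ < cap := lt_of_le_of_ne (hω1 κ).2 hne
      have h2 := hω3 κ ((hK κ).mpr hκ1) hlt
      have h3 : ∑ i, w (κ i) = -∑ i, (1 - ld K ω (κ i)) := by
        rw [← Finset.sum_neg_distrib]
        apply Finset.sum_congr rfl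
        intro i _
        simp only [hw]
        ring
      linarith
    have h2 : (S.card : ℝ) * cap ≤ nn V := by
      calc (S.card : ℝ) * cap = ∑ κ ∈ S, ω κ := by
            rw [Finset.sum_congr rfl h1, Finset.sum_const, nsmul_eq_mul]
        _ ≤ ∑ κ, ω κ := Finset.sum_le_sum_of_subset_of_nonneg (Finset.subset_univ _) fun κ _ _ => hω0 κ
        _ ≤ nn V := hωle
    rw [hcap] at h2
    have h3 : nn V ^ (3 * t) = nn V * nn V ^ (3 * t - 1) := by
      rw [← pow_succ']
      congr 1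
      omega
    rw [h3]
    have h4 : (0 : ℝ) < nn V ^ (3 * t - 1) := by positivity
    rw [div_div, mul_one_div, div_le_iff₀ (by positivity)] at h2
    calc (S.card : ℝ) ≤ nn V * (lam * nn V ^ (3 * t - 1)) := h2
      _ = _ := by ring
  have hfew := hDI V E w hn2 hfewc
  have hDH : DH E c ε0 D δ w :=
    { hy := hHy, c0 := hc, c1 := hc1, e0 := he0, e1 := he1,
      lo := fun v => by
        have := ld_nonneg K ω hω0 v
        simp only [hw]
        linarith
      sum := by rw [hsumw]; linarith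
      few := hfew
      d0 := hδ }
  have hA := hDU V E D w hn1 hDH
  -- the new weights
  set a : V → ℝ := fun v => 1 / max 1 (ld K ω v) with ha
  have ham : ∀ v, (1 : ℝ) ≤ max 1 (ld K ω v) := fun v => le_max_left _ _
  have ha0 : ∀ v, 0 ≤ a v := fun v => by
    have := ham v
    simp only [ha]
    positivity
  have ha1 : ∀ v, a v ≤ 1 := fun v => by
    have := ham v
    simp only [ha]
    rw [div_le_one (by linarith)]
    exact this
  set ω' : (Fin 3 × Fin t → V) → ℝ := fun κ => ω κ * ∏ i, a (κ i) with hω'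
  have hp0 : ∀ κ : Fin 3 × Fin t → V, 0 ≤ ∏ i, a (κ i) := fun κ => Finset.prod_nonneg fun i _ => ha0 _
  have hp1 : ∀ κ : Fin 3 × Fin t → V, ∏ i, a (κ i) ≤ 1 := fun κ => Finset.prod_le_one (fun i _ => ha0 _) fun i _ => ha1 _
  have hω'0 : ∀ κ, 0 ≤ ω' κ := fun κ => mul_nonneg (hω0 κ) (hp0 κ)
  have hω'1 : ∀ κ, ω' κ ≤ ω κ := fun κ => by
    simp only [hω']
    nlinarith [hω0 κ, hp1 κ]
  refine ⟨ω', fun κ => ⟨hω'0 κ, ?_⟩, fun κ hκ => by simp only [hω', hω2 κ hκ, zero_mul], fun v => ?_, ?_⟩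
  · have h1 := (hω'1 κ).trans (hω1 κ).2
    have h4 : (0 : ℝ) < nn V ^ (3 * t - 1) := by positivity
    rw [hcap, le_div_iff₀ h4] at h1
    exact h1
  · have hav : ld K ω' v ≤ ld K ω v * a v := by
      unfold ld
      rw [Finset.sum_mul]
      apply Finset.sum_le_sum
      intro κ hκ
      obtain ⟨i, hi⟩ := (Finset.mem_filter.mp hκ).2
      simp only [hω']
      apply mul_le_mul_of_nonneg_left _ (hω0 κ)
      rw [← Finset.mul_prod_erase univ (fun i => a (κ i)) (Finset.mem_univ i), hi]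
      have h5 : ∏ j ∈ univ.erase i, a (κ j) ≤ 1 := Finset.prod_le_one (fun i _ => ha0 _) fun i _ => ha1 _
      nlinarith [ha0 v]
    refine hav.trans ?_
    have := ham v
    simp only [ha]
    rw [mul_one_div, div_le_one (by linarith)]
    exact le_max_right _ _
  · -- the loss
    have hloss : ∑ κ, ω κ - ∑ κ, ω' κ ≤ A1 * nn V := by
      have h1 : ∑ κ, ω κ - ∑ κ, ω' κ ≤ ∑ κ, ω κ * ∑ i, (1 - a (κ i)) := by
        rw [← Finset.sum_sub_distrib]
        apply Finset.sum_le_sum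
        intro κ _
        have h2 := one_sub_prod_le univ (fun i => a (κ i)) (fun i => ha0 _) (fun i => ha1 _)
        simp only [hω']
        have h3 := mul_le_mul_of_nonneg_left h2 (hω0 κ)
        linarith
      refine h1.trans ?_
      rw [← ld_sum K ω hKinj hω2 (fun v => 1 - a v)]
      refine le_trans ?_ hA
      apply Finset.sum_le_sum
      intro v _
      have hv0 := ld_nonneg K ω hω0 v
      simp only [hw, ha]
      rcases le_or_gt (ld K ω v) 1 with h | h
      · rw [max_eq_left h]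
        simp
      · rw [max_eq_right h.le]
        have h6 : ld K ω v * (1 - 1 / ld K ω v) = ld K ω v - 1 := by
          field_simp
        rw [h6]
        exact le_abs_self _
    have hlow : nn V - A1 * nn V ≤ 3 * t * ∑ κ, ω κ := by
      rw [← hld]
      have h1 : ∑ v, (1 - ld K ω v) ≤ ∑ v, |w v| := by
        apply Finset.sum_le_sum
        intro v _
        simp only [hw]
        rw [abs_sub_comm]
        exact le_abs_self _
      linarith
    have h7 : α = A1 * (1 + 3 * t) := by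
      rw [hA1]
      field_simp
    have h8 : 3 * (t : ℝ) * (∑ κ, ω κ - ∑ κ, ω' κ) ≤ 3 * t * (A1 * nn V) := mul_le_mul_of_nonneg_left hloss (by positivity)
    rw [h7]
    nlinarith

end Pool.Agent.Q198.KP
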