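import Pool.Agent.Q54.KP.StmA

set_option autoImplicit false

namespace Pool.Agent.Q198.KP

open Finset
open Pool.Agent.Q54.KP

/-- the matrix `2 + P_σ` -/
def mat {d : ℕ} (σ : Fin d → Fin d) : Matrix (Fin d) (Fin d) ℤ :=
  fun b e => 2 * (if b = e then 1 else 0) + (if b = σ e then 1 else 0)

lemma mat_det {d : ℕ} (σ : Fin d → Fin d) : (mat σ).det ≠ 0 := by
  have h : ((mat σ).map (fun z : ℤ => (z : ℝ))).det ≠ 0 := by
    apply det_ne_zero_of_sum_col_lt_diag
    intro k
    have h1 : ∀ i ∈ Finset.univ.erase k, ‖((mat σ).map (fun z : ℤ => (z : ℝ))) i k‖ = if i = σ k then (1 : ℝ) else 0 := by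
      intro i hi
      have hik : i ≠ k := (Finset.mem_erase.mp hi).1
      simp only [Matrix.map_apply, mat, if_neg hik]
      split_ifs <;> simp
    rw [Finset.sum_congr rfl h1]
    have h2 : ∑ i ∈ Finset.univ.erase k, (if i = σ k then (1 : ℝ) else 0) ≤ 1 := by
      calc _ ≤ ∑ i : Fin d, (if i = σ k then (1 : ℝ) else 0) :=
            Finset.sum_le_sum_of_subset_of_nonneg (Finset.subset_univ _) fun i _ _ => by split_ifs <;> norm_num
        _ = 1 := by simp
    have h3 : (2 : ℝ) ≤ ‖((mat σ).map (fun z : ℤ => (z : ℝ))) k k‖ := by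
      simp only [Matrix.map_apply, mat, if_true]
      split_ifs <;> norm_num
    linarith
  intro h0
  apply h
  have h4 : ((mat σ).map (fun z : ℤ => (z : ℝ))).det = (((mat σ).det : ℤ) : ℝ) := by
    have := RingHom.map_det (Int.castRingHom ℝ) (mat σ)
    simp only [RingHom.mapMatrix_apply] at this
    exact this.symm
  rw [h4, h0]
  simp

lemma lat1 {d : ℕ} (t : ℕ) (ht : 1 ≤ t) (σ : Fin d → Fin d) (a : Fin d) : ∃ N : ℕ, 0 < N ∧ ∃ x y : Fin d → ℕ,
    ∀ b : Fin d, (if b = a then N else 0) + ∑ e, x e * (t * (2 * (if b = e then 1 else 0) + (if b = σ e then 1 else 0)))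
      = ∑ e, y e * (t * (2 * (if b = e then 1 else 0) + (if b = σ e then 1 else 0))) := by
  set D : ℤ := (mat σ).det with hD
  have hD0 : D ≠ 0 := mat_det σ
  set z : Fin d → ℤ := fun e => (mat σ).adjugate e a * Int.sign D with hz
  have hA : ∀ b, ∑ e, mat σ b e * z e = if b = a then |D| else 0 := by
    intro b
    have h1 : ∑ e, mat σ b e * z e = (∑ e, mat σ b e * (mat σ).adjugate e a) * Int.sign D := by
      rw [Finset.sum_mul]
      apply Finset.sum_congr rfl
      intro e _
      simp only [hz]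
      ring
    have h2 : ∑ e, mat σ b e * (mat σ).adjugate e a = (mat σ * (mat σ).adjugate) b a := by
      rw [Matrix.mul_apply]
    rw [h1, h2, Matrix.mul_adjugate]
    simp only [Matrix.smul_apply, Matrix.one_apply, smul_eq_mul]
    split_ifs with hb
    · rw [mul_one]
      have := Int.sign_mul_abs D
      rw [← hD]
      rw [mul_comm]
      exact Int.sign_mul_self_eq_abs D
    · simp
  refine ⟨t * D.natAbs, Nat.mul_pos ht (Int.natAbs_pos.mpr hD0), fun e => (-(z e)).toNat, fun e => (z e).toNat, ?_⟩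
  intro b
  zify
  have h3 : ∀ e, (((z e).toNat : ℤ)) - ((-(z e)).toNat : ℤ) = z e := by
    intro e
    omega
  have h4 := hA b
  have h5 : ∑ e, ((z e).toNat : ℤ) * (t * (2 * (if b = e then 1 else 0) + (if b = σ e then 1 else 0))) -
      ∑ e, ((-(z e)).toNat : ℤ) * (t * (2 * (if b = e then 1 else 0) + (if b = σ e then 1 else 0))) =
      t * ∑ e, mat σ b e * z e := by
    rw [← Finset.sum_sub_distrib, Finset.mul_sum]
    apply Finset.sum_congr rfl
    intro e _
    rw [← sub_mul, h3 e]
    simp only [mat]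
    ring
  rw [h4] at h5
  have h6 : ((if b = a then t * D.natAbs else 0 : ℕ) : ℤ) = t * (if b = a then |D| else 0) := by
    split_ifs
    · push_cast
      rfl
    · simp
  push_cast at h5 h6 ⊢
  linarith

theorem lat : S_LAT := by
  intro q t ht
  classical
  let I : Type := Σ d : Fin (q + 1), (Fin d → Fin d) × Fin d
  have : Fintype I := inferInstance
  have hL : ∀ i : I, ∃ N : ℕ, 0 < N ∧ ∃ x y : Fin i.1 → ℕ,
    ∀ b : Fin i.1, (if b = i.2.2 then N else 0) + ∑ e, x e * (t * (2 * (if b = e then 1 else 0) + (if b = i.2.1 e then 1 else 0)))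
      = ∑ e, y e * (t * (2 * (if b = e then 1 else 0) + (if b = i.2.1 e then 1 else 0))) := fun i => lat1 t ht i.2.1 i.2.2
  choose Nf hN0 xf yf hxy using hL
  set N : ℕ := ∏ i, Nf i with hN
  have hdiv : ∀ i, Nf i ∣ N := fun i => Finset.dvd_prod_of_mem _ (Finset.mem_univ i)
  choose m hm using hdiv
  refine ⟨N, Finset.prod_pos fun i _ => hN0 i, ∑ i : I, ∑ e, m i * xf i e, ?_⟩
  intro d hd σ a
  set i : I := ⟨⟨d, by omega⟩, σ, a⟩ with hi
  set X : ℕ := ∑ i : I, ∑ e, m i * xf i e with hX
  have hle : ∑ e, m i * xf i e ≤ X := by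
    rw [hX]
    exact Finset.single_le_sum (f := fun i : I => ∑ e, m i * xf i e) (fun _ _ => Nat.zero_le _) (Finset.mem_univ i)
  set k : ℕ := X - ∑ e, m i * xf i e with hk
  refine ⟨fun e : Fin d => m i * xf i e + (if e = a then k else 0), fun e : Fin d => m i * yf i e + (if e = a then k else 0), ?_, ?_⟩
  · rw [Finset.sum_add_distrib]
    have h1 : ∑ e : Fin d, (if e = a then k else 0) = k := by simp
    rw [h1]
    have h2 : ∑ e : Fin d, m i * xf i e = ∑ e, m i * xf i e := rfl
    omega
  · intro b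
    have h1 := hxy i b
    have h2 : m i * ((if b = a then Nf i else 0) + ∑ e : Fin d, xf i e * (t * (2 * (if b = e then 1 else 0) + (if b = σ e then 1 else 0))))
      = m i * ∑ e : Fin d, yf i e * (t * (2 * (if b = e then 1 else 0) + (if b = σ e then 1 else 0))) := congrArg (fun s => m i * s) h1
    rw [mul_add, Finset.mul_sum, Finset.mul_sum] at h2
    have h3 : m i * (if b = a then Nf i else 0) = if b = a then N else 0 := by
      split_ifs
      · rw [hm i, mul_comm]
      · simp
    rw [h3] at h2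
    simp only [add_mul, Finset.sum_add_distrib]
    rw [← add_assoc]
    congr 1
    simp only [← mul_assoc] at h2 ⊢
    convert h2 using 2

end Pool.Agent.Q198.KP
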